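import Pool.Agent.helper73.TF.Spec

set_option autoImplicit false

namespace Pool.Agent.TF

open Matrix Pool.Agent.H48SL

theorem FIX_pow_sq_zero {n : ℕ} (A : Matrix (Fin n) (Fin n) ℤ) (hA : A * A = 0) (k : ℕ) :
    (1 + A) ^ k = 1 + (k : ℤ) • A := by
  induction k with
  | zero => simp
  | succ k ih =>
    rw [pow_succ, ih, Matrix.add_mul, Matrix.one_mul, Matrix.smul_mul, Matrix.mul_add, Matrix.mul_one, hA,
      add_zero]
    push_cast
    rw [add_smul, one_smul]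
    abel

theorem FIX_pow_mulVec {n : ℕ} (p : Matrix (Fin n) (Fin n) ℤ) (v : Fin n → ℤ) (a b : ℤ)
    (h : a • (p *ᵥ v) = b • v) (k : ℕ) : a ^ k • ((p ^ k) *ᵥ v) = b ^ k • v := by
  induction k with
  | zero => simp
  | succ k ih =>
    have h1 : (p ^ (k + 1)) *ᵥ v = p *ᵥ ((p ^ k) *ᵥ v) := by
      rw [pow_succ', mulVec_mulVec]
    rw [h1, pow_succ a, mul_comm, mul_smul, ← mulVec_smul, ih, mulVec_smul, smul_comm, h, smul_smul, pow_succ b]

/-- from proportionality to a sign -/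
theorem FIX_sign {n : ℕ} (p : Matrix (Fin n) (Fin n) ℤ) (v : Fin n → ℤ) (hv : v ≠ 0) (a b : ℤ) (ha : a ≠ 0)
    (h : a • (p *ᵥ v) = b • v) (k : ℕ) (hk : 1 ≤ k) (hp : (p ^ k) *ᵥ v = v) :
    p *ᵥ v = v ∨ p *ᵥ v = -v := by
  have h1 := FIX_pow_mulVec p v a b h k
  rw [hp] at h1
  obtain ⟨i, hi⟩ := Function.ne_iff.mp hv
  have h2 := congrFun h1 i
  simp only [Pi.smul_apply, smul_eq_mul] at h2
  have h3 : a ^ k = b ^ k := mul_right_cancel₀ hi h2
  have h4 : |a| = |b| := by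
    have h5 : |a| ^ k = |b| ^ k := by rw [← abs_pow, ← abs_pow, h3]
    exact (pow_left_inj₀ (abs_nonneg a) (abs_nonneg b) (by omega)).mp h5
  rcases abs_eq_abs.mp h4 with h5 | h5
  · left
    rw [← h5] at h
    exact smul_right_injective _ ha h
  · right
    have hb : a • (p *ᵥ v) = a • (-v) := by
      rw [h, h5]
      simp
    exact smul_right_injective _ ha hb

theorem FIX_congr_mulVec {n : ℕ} (p : Matrix (Fin n) (Fin n) ℤ) (M : ℤ)
    (hp : ∀ i j, M ∣ (p - 1) i j) (x : Fin n → ℤ) (i : Fin n) : M ∣ (p *ᵥ x) i - x i := by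
  have h1 : (p *ᵥ x) i - x i = ((p - 1) *ᵥ x) i := by
    rw [Matrix.sub_mulVec, Matrix.one_mulVec]
    rfl
  rw [h1, Matrix.mulVec, dotProduct]
  exact Finset.dvd_sum fun j _ => Dvd.dvd.mul_right (hp i j) _

theorem FIX_fix {n : ℕ} (p : Matrix (Fin n) (Fin n) ℤ) (v : Fin n → ℤ) (i : Fin n) (hi : v i ≠ 0) (c : ℤ)
    (hp : ∀ i' j', (3 * (v i * c)) ∣ (p - 1) i' j') (a b : ℤ) (ha : a ≠ 0)
    (h : a • (p *ᵥ v) = b • v) (k : ℕ) (hk : 1 ≤ k) (hpk : (p ^ k) *ᵥ v = v) : p *ᵥ v = v := by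
  have hv : v ≠ 0 := by
    rintro rfl
    exact hi rfl
  rcases FIX_sign p v hv a b ha h k hk hpk with h1 | h1
  · exact h1
  · exfalso
    have h2 := FIX_congr_mulVec p _ hp v i
    rw [h1, Pi.neg_apply] at h2
    obtain ⟨e, he⟩ := h2
    have h3 : v i * (3 * (c * e)) = v i * (-2) := by linarith
    have h4 := mul_left_cancel₀ hi h3
    omega

/-- the core: an element congruent to one modulo three times an entry of `v ⊗ f` is a power of `z` -/
theorem FIX_core (hMNK : MNK_stmt) {n : ℕ} (P : Subgroup (SLZ n)) (z : SLZ n) (v f : Fin n → ℤ) (hz : z ∈ P)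
    (hT : Tv z v f) (hall : ∀ p ∈ P, ∃ k : ℕ, 1 ≤ k ∧ ∃ m : ℤ, p ^ k = z ^ m) (i j : Fin n) (hi : v i ≠ 0)
    (hj : f j ≠ 0) (p : SLZ n) (hp : p ∈ P)
    (hc : ∀ i' j', (3 * (v i * f j)) ∣ ((p : Matrix (Fin n) (Fin n) ℤ) - 1) i' j') :
    p ∈ Subgroup.zpowers z := by
  -- powers of `z`
  have hzm : ∀ m : ℤ, ((z ^ m : SLZ n) : Matrix (Fin n) (Fin n) ℤ) = 1 + vecMulVec v (m • f) := by
    intro m
    rw [hT.eq, ← tv_zsmul_right hT.dot, tv_coe (by rw [smul_dotProduct, hT.dot, smul_zero])]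
  obtain ⟨k, hk, m, hkm⟩ := hall p hp
  have hpk : ((p : Matrix (Fin n) (Fin n) ℤ)) ^ k = 1 + vecMulVec v (m • f) := by
    rw [← hzm m, ← hkm, Matrix.SpecialLinearGroup.coe_pow]
  -- conjugate
  obtain ⟨k', hk', m', hkm'⟩ := hall (p * z * p⁻¹) (P.mul_mem (P.mul_mem hp hz) (P.inv_mem hp))
  have hconj : (p * z * p⁻¹) ^ k' = p * z ^ (k' : ℤ) * p⁻¹ := by
    rw [conj_pow, zpow_natCast]
  have hcj : ((p * z * p⁻¹) ^ k' : SLZ n) = tv ((p : Matrix (Fin n) (Fin n) ℤ) *ᵥ v)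
      (((k' : ℤ) • f) ᵥ* ((p⁻¹ : SLZ n) : Matrix (Fin n) (Fin n) ℤ)) := by
    rw [hconj, hT.eq, ← tv_zsmul_right hT.dot, tv_conj (by rw [smul_dotProduct, hT.dot, smul_zero])]
  have hmat : vecMulVec ((p : Matrix (Fin n) (Fin n) ℤ) *ᵥ v)
      (((k' : ℤ) • f) ᵥ* ((p⁻¹ : SLZ n) : Matrix (Fin n) (Fin n) ℤ)) = vecMulVec v (m' • f) := by
    have h1 : (((p * z * p⁻¹) ^ k' : SLZ n) : Matrix (Fin n) (Fin n) ℤ) = 1 + vecMulVec v (m' • f) := by
      rw [hkm', hzm]
    rw [hcj, tv_coe (by rw [vecMul_inv_dot, smul_dotProduct, hT.dot, smul_zero])] at h1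
    exact add_left_cancel h1
  -- the vectors `p v` and `f p⁻¹` are not zero
  have hpv : (p : Matrix (Fin n) (Fin n) ℤ) *ᵥ v ≠ 0 := by
    intro h0
    apply hT.ne_v
    have h1 : ((p⁻¹ : SLZ n) : Matrix (Fin n) (Fin n) ℤ) *ᵥ ((p : Matrix (Fin n) (Fin n) ℤ) *ᵥ v) = v := by
      rw [mulVec_mulVec, ← Matrix.SpecialLinearGroup.coe_mul, inv_mul_cancel]
      simp
    rw [← h1, h0, mulVec_zero]
  have hfp : f ᵥ* ((p⁻¹ : SLZ n) : Matrix (Fin n) (Fin n) ℤ) ≠ 0 := by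
    intro h0
    apply hT.ne_f
    have h1 : (f ᵥ* ((p⁻¹ : SLZ n) : Matrix (Fin n) (Fin n) ℤ)) ᵥ* (p : Matrix (Fin n) (Fin n) ℤ) = f := by
      rw [vecMul_vecMul, ← Matrix.SpecialLinearGroup.coe_mul, inv_mul_cancel]
      simp
    rw [← h1, h0, zero_vecMul]
  obtain ⟨i1, hi1⟩ := Function.ne_iff.mp hpv
  obtain ⟨j1, hj1⟩ := Function.ne_iff.mp hfp
  rw [Pi.zero_apply] at hi1 hj1
  have hk0 : (k' : ℤ) ≠ 0 := by
    have : (0 : ℤ) < k' := by exact_mod_cast hk'
    exact this.ne'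
  -- `p v = v`
  have h1 : (p : Matrix (Fin n) (Fin n) ℤ) *ᵥ v = v := by
    refine FIX_fix (p : Matrix (Fin n) (Fin n) ℤ) v i hi (f j) hc
      (k' * (f ᵥ* ((p⁻¹ : SLZ n) : Matrix (Fin n) (Fin n) ℤ)) j1) (m' * f j1) (mul_ne_zero hk0 hj1) ?_ k hk ?_
    · ext x
      have h2 := congrFun (congrFun hmat x) j1
      rw [vecMulVec_apply, vecMulVec_apply, smul_vecMul] at h2
      simp only [Pi.smul_apply, smul_eq_mul] at h2 ⊢
      linarith
    · rw [hpk, add_mulVec, one_mulVec, vecMulVec_mulVec, smul_dotProduct, hT.dot]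
      simp
  -- `f p = f`, through the transpose of the inverse
  have h2 : f ᵥ* (p : Matrix (Fin n) (Fin n) ℤ) = f := by
    have h3 : (p : Matrix (Fin n) (Fin n) ℤ)ᵀ *ᵥ f = f := by
      refine FIX_fix (p : Matrix (Fin n) (Fin n) ℤ)ᵀ f j hj (v i) ?_
        (m' * v i1) (k' * ((p : Matrix (Fin n) (Fin n) ℤ) *ᵥ v) i1) ?_ ?_ k hk ?_
      · intro i' j'
        have h4 := hc j' i'
        have h5 : ((p : Matrix (Fin n) (Fin n) ℤ)ᵀ - 1) i' j' = ((p : Matrix (Fin n) (Fin n) ℤ) - 1) j' i' := by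
          rw [Matrix.sub_apply, Matrix.sub_apply, Matrix.transpose_apply, Matrix.one_apply, Matrix.one_apply]
          simp only [eq_comm]
        rw [h5, mul_comm (f j)]
        exact h4
      · -- `m' v_{i1} ≠ 0`
        have h6 := congrFun (congrFun hmat i1) j1
        rw [vecMulVec_apply, vecMulVec_apply, smul_vecMul] at h6
        simp only [Pi.smul_apply, smul_eq_mul] at h6
        intro h7
        have h8 : ((p : Matrix (Fin n) (Fin n) ℤ) *ᵥ v) i1 *
            (k' * (f ᵥ* ((p⁻¹ : SLZ n) : Matrix (Fin n) (Fin n) ℤ)) j1) = 0 := by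
          rw [h6]
          linear_combination f j1 * h7
        exact mul_ne_zero hi1 (mul_ne_zero hk0 hj1) h8
      · -- from `k' (pv)_{i1} (f p⁻¹) = m' v_{i1} f`
        have h6 : (k' * ((p : Matrix (Fin n) (Fin n) ℤ) *ᵥ v) i1) •
            (f ᵥ* ((p⁻¹ : SLZ n) : Matrix (Fin n) (Fin n) ℤ)) = (m' * v i1) • f := by
          ext y
          have h7 := congrFun (congrFun hmat i1) y
          rw [vecMulVec_apply, vecMulVec_apply, smul_vecMul] at h7
          simp only [Pi.smul_apply, smul_eq_mul] at h7 ⊢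
          linarith
        have h7 := congrArg (fun w => w ᵥ* (p : Matrix (Fin n) (Fin n) ℤ)) h6
        simp only [smul_vecMul, vecMul_vecMul] at h7
        rw [← Matrix.SpecialLinearGroup.coe_mul, inv_mul_cancel, Matrix.SpecialLinearGroup.coe_one,
          vecMul_one] at h7
        rw [mulVec_transpose]
        exact h7.symm
      · rw [← Matrix.transpose_pow, mulVec_transpose, hpk, vecMul_add, vecMul_one, vecMul_vecMulVec, hT.dot]
        simp
    rw [mulVec_transpose] at h3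
    exact h3
  -- MNK
  have h3 : ∀ x : Fin n → ℤ, f ⬝ᵥ x = 0 → (p : Matrix (Fin n) (Fin n) ℤ) *ᵥ x = x := by
    have h4 := hMNK n (p : Matrix (Fin n) (Fin n) ℤ)
      { carrier := {x | f ⬝ᵥ x = 0}
        add_mem' := by
          intro a b ha hb
          simp only [Set.mem_setOf_eq] at ha hb ⊢
          rw [dotProduct_add, ha, hb, add_zero]
        zero_mem' := by simp
        smul_mem' := by
          intro c x hx
          simp only [Set.mem_setOf_eq] at hx ⊢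
          rw [dotProduct_smul, hx, smul_zero] } ?_ ?_ ?_ k hk ?_
    · intro x hx
      exact h4 x hx
    · intro x hx
      have hx' : f ⬝ᵥ ((3 : ℤ) • x) = 0 := hx
      rw [dotProduct_smul, smul_eq_mul] at hx'
      show f ⬝ᵥ x = 0
      omega
    · intro x hx
      have hx' : f ⬝ᵥ x = 0 := hx
      show f ⬝ᵥ ((p : Matrix (Fin n) (Fin n) ℤ) *ᵥ x) = 0
      rw [dotProduct_mulVec, h2, hx']
    · intro x _
      have h5 : ∀ y : Fin n, ∃ e : ℤ, ((p : Matrix (Fin n) (Fin n) ℤ) *ᵥ x) y - x y = 3 * e := by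
        intro y
        obtain ⟨e, he⟩ := FIX_congr_mulVec (p : Matrix (Fin n) (Fin n) ℤ) _ hc x y
        exact ⟨v i * f j * e, by rw [he]; ring⟩
      choose e he using h5
      refine ⟨e, ?_⟩
      ext y
      simp only [Pi.sub_apply, Pi.smul_apply, smul_eq_mul]
      exact he y
    · intro x hx
      have hx' : f ⬝ᵥ x = 0 := hx
      rw [hpk, add_mulVec, one_mulVec, vecMulVec_mulVec, smul_dotProduct, hx']
      simp
  -- `g (p - 1) = w ⊗ f`
  obtain ⟨g, w, hg, hgw, hfw⟩ : ∃ (g : ℤ) (w : Fin n → ℤ), g ≠ 0 ∧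
      g • ((p : Matrix (Fin n) (Fin n) ℤ) - 1) = vecMulVec w f ∧ f ⬝ᵥ w = 0 := by
    refine ⟨f j, (p : Matrix (Fin n) (Fin n) ℤ) *ᵥ (Pi.single j 1) - Pi.single j 1, hj, ?_, ?_⟩
    · ext x y
      have h4 := h3 (f j • Pi.single y 1 - f y • Pi.single j 1) (by
        rw [dotProduct_sub, dotProduct_smul, dotProduct_smul, dotProduct_single, dotProduct_single]
        simp only [smul_eq_mul]
        ring)
      rw [mulVec_sub, mulVec_smul, mulVec_smul] at h4
      have h5 := congrFun h4 x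
      simp only [Pi.sub_apply, Pi.smul_apply, smul_eq_mul, mulVec_single_one, Matrix.col_apply] at h5
      simp only [Matrix.smul_apply, Matrix.sub_apply, vecMulVec_apply, Pi.sub_apply, smul_eq_mul,
        mulVec_single_one, Matrix.col_apply, Matrix.one_apply, Pi.single_apply] at h5 ⊢
      linarith
    · rw [dotProduct_sub, dotProduct_mulVec, h2, sub_self]
  -- square zero
  have hsq : ((p : Matrix (Fin n) (Fin n) ℤ) - 1) * ((p : Matrix (Fin n) (Fin n) ℤ) - 1) = 0 := by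
    have h4 : (g * g) • (((p : Matrix (Fin n) (Fin n) ℤ) - 1) * ((p : Matrix (Fin n) (Fin n) ℤ) - 1)) = 0 := by
      rw [mul_smul, ← Matrix.mul_smul, ← Matrix.smul_mul, hgw, vecMulVec_mul_vecMulVec, hfw]
      simp
    exact (smul_eq_zero.mp h4).resolve_left (mul_ne_zero hg hg)
  have hpk2 := FIX_pow_sq_zero _ hsq k
  rw [add_sub_cancel, hpk] at hpk2
  have hkey : vecMulVec v (m • f) = (k : ℤ) • ((p : Matrix (Fin n) (Fin n) ℤ) - 1) := add_left_cancel hpk2
  -- the exponent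
  obtain ⟨a, ha⟩ := hc i j
  have h5 := congrFun (congrFun hkey i) j
  rw [vecMulVec_apply, Matrix.smul_apply, ha] at h5
  simp only [Pi.smul_apply, smul_eq_mul] at h5
  have h6 : m = k * (3 * a) := by
    have h7 : (v i * f j) * m = (v i * f j) * (k * (3 * a)) := by linarith
    exact mul_left_cancel₀ (mul_ne_zero hi hj) h7
  have hk1 : (k : ℤ) ≠ 0 := by
    have : (0 : ℤ) < k := by exact_mod_cast hk
    exact this.ne'
  have h7 : (p : Matrix (Fin n) (Fin n) ℤ) - 1 = vecMulVec v ((3 * a) • f) := by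
    have h8 : (k : ℤ) • ((p : Matrix (Fin n) (Fin n) ℤ) - 1) = (k : ℤ) • vecMulVec v ((3 * a) • f) := by
      rw [← hkey, h6, mul_smul, vecMulVec_smul (k : ℤ)]
    exact smul_right_injective _ hk1 h8
  refine ⟨3 * a, ?_⟩
  apply SL_ext
  show ((z ^ (3 * a) : SLZ n) : Matrix (Fin n) (Fin n) ℤ) = _
  rw [hzm, ← h7]
  abel

theorem FIX (hMNK : MNK_stmt) : FIX_stmt := by
  intro n P z v f hz hT hall
  obtain ⟨i, hi⟩ := Function.ne_iff.mp hT.ne_v
  obtain ⟨j, hj⟩ := Function.ne_iff.mp hT.ne_f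
  rw [Pi.zero_apply] at hi hj
  set M : ℕ := (3 * (v i * f j)).natAbs with hM
  have hM0 : M ≠ 0 := by
    rw [hM]
    exact Int.natAbs_ne_zero.mpr (mul_ne_zero (by norm_num) (mul_ne_zero hi hj))
  haveI : NeZero M := ⟨hM0⟩
  set φ : SLZ n →* SpecialLinearGroup (Fin n) (ZMod M) :=
    Matrix.SpecialLinearGroup.map (Int.castRingHom (ZMod M)) with hφ
  have hle : φ.ker ⊓ P ≤ Subgroup.zpowers z := by
    intro p hp
    obtain ⟨hpk, hpP⟩ := hp
    refine FIX_core hMNK P z v f hz hT hall i j hi hj p hpP ?_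
    intro i' j'
    have h1 : φ p = 1 := hpk
    have h2 := congrArg (fun q : SpecialLinearGroup (Fin n) (ZMod M) => (q : Matrix (Fin n) (Fin n) (ZMod M)) i' j') h1
    have h3 : (((p : Matrix (Fin n) (Fin n) ℤ) i' j' : ℤ) : ZMod M) = ((1 : Matrix (Fin n) (Fin n) ℤ) i' j' : ℤ) := by
      have h4 : (φ p : Matrix (Fin n) (Fin n) (ZMod M)) i' j' = (((p : Matrix (Fin n) (Fin n) ℤ) i' j' : ℤ) : ZMod M) := rfl
      rw [← h4]
      rw [show (φ p : Matrix (Fin n) (Fin n) (ZMod M)) i' j' = (1 : Matrix (Fin n) (Fin n) (ZMod M)) i' j' from h2]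
      rw [Matrix.one_apply, Matrix.one_apply]
      split_ifs <;> simp
    have h5 : ((M : ℕ) : ℤ) ∣ ((1 : Matrix (Fin n) (Fin n) ℤ) i' j' - (p : Matrix (Fin n) (Fin n) ℤ) i' j') := by
      exact (ZMod.intCast_eq_intCast_iff_dvd_sub _ _ _).mp h3
    rw [hM, Int.natCast_natAbs, abs_dvd] at h5
    rw [Matrix.sub_apply]
    have h6 := (dvd_neg.mpr h5)
    rwa [neg_sub] at h6
  intro h0
  have h1 := Subgroup.relIndex_dvd_of_le_left P hle
  rw [h0] at h1
  have h2 := zero_dvd_iff.mp h1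
  rw [Subgroup.inf_relIndex_right] at h2
  haveI : Finite (SpecialLinearGroup (Fin n) (ZMod M)) := by
    unfold Matrix.SpecialLinearGroup
    infer_instance
  haveI : φ.ker.FiniteIndex := inferInstance
  exact Subgroup.FiniteIndex.index_ne_zero (H := φ.ker.subgroupOf P) h2

end Pool.Agent.TF
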